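import Pool.Agent.W957.CH.Stm2

/-! Project CH (MP_d275fd_co), part SHR: shrinking outgoing pairs. -/

namespace Pool.Agent.W193.CH.Shr

open Finset Pool.Agent.W957.CH

variable {V : Type} [DecidableEq V] {X : Cx V} {n : ℕ} {c : ℕ → V} {τ N : ℕ} {x y : ℕ → ℕ}
  {K : ℕ → Finset V}

theorem xlt (h : Lad X n c τ N x y K) (r s : ℕ) (hrs : r < s) (hs : s ≤ N) : x r + τ < x s := by
  induction s with
  | zero => omega
  | succ s ih =>
    rcases Nat.lt_succ_iff_lt_or_eq.mp hrs with h1 | h1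
    · have := ih h1 (by omega); have := h.xi s (by omega); omega
    · subst h1; exact h.xi r (by omega)

theorem ylt (h : Lad X n c τ N x y K) (r s : ℕ) (hrs : r < s) (hs : s ≤ N) : y s + τ < y r := by
  induction s with
  | zero => omega
  | succ s ih =>
    rcases Nat.lt_succ_iff_lt_or_eq.mp hrs with h1 | h1
    · have := ih h1 (by omega); have := h.yd s (by omega); omega
    · subst h1; exact h.yd r (by omega)

theorem xle (h : Lad X n c τ N x y K) (r s : ℕ) (hrs : r ≤ s) (hs : s ≤ N) : x r ≤ x s := by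
  rcases Nat.eq_or_lt_of_le hrs with h1 | h1
  · rw [h1]
  · have := xlt h r s h1 hs; omega

theorem yle (h : Lad X n c τ N x y K) (r s : ℕ) (hrs : r ≤ s) (hs : s ≤ N) : y s ≤ y r := by
  rcases Nat.eq_or_lt_of_le hrs with h1 | h1
  · rw [h1]
  · have := ylt h r s h1 hs; omega

/-- attachments of two separated windows: different components and different positions -/
theorem sep (h2 : S_WLOC) {σ : ℕ} (hS : Set2 X n c τ σ) (h : Lad X n c τ N x y K)
    (r s r' s' i j : ℕ) (M M' : Finset V) (hrs : r < s) (hs : s ≤ N) (hsr : s' < r)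
    (hrs' : r' < s')
    (hi : i ∈ win x y r s) (hj : j ∈ win x y r' s') (hM : Comp X n c M)
    (h3 : At X c M i) (h4 : At X c M' j) : M ≠ M' ∧ i ≠ j := by
  have e0 := h.xy
  have e1 := xlt h s' r hsr (by omega)
  have e2 := ylt h s' r hsr (by omega)
  have e3 := xle h 0 r' (by omega) (by omega)
  have e4 := yle h 0 r' (by omega) (by omega)
  have e5 := xle h s' N (by omega) (by omega)
  have e6 := yle h s' N (by omega) (by omega)
  have e7 := xle h s N (by omega) (by omega)
  have e8 := yle h s N (by omega) (by omega)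
  simp only [win, mem_union, mem_Ioo] at hi hj
  refine ⟨?_, ?_⟩
  · intro hMM
    subst hMM
    have := h2 V X n c τ σ N x y K r s i j M hS h hrs hs
      (by simp only [win, mem_union, mem_Ioo]; exact hi) hM h3 h4 (by omega)
    omega
  · intro hij
    subst hij
    omega

theorem bey (h : Lad X n c τ N x y K) (r s q i : ℕ) (hrs : r < s) (hs : s ≤ N) (hq : q ≤ r)
    (hi : i ∈ win x y r s) : Bey x y N q i := by
  have e1 := xle h q r hq (by omega)
  have e2 := yle h q r hq (by omega)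
  have e7 := xle h s N (by omega) (by omega)
  have e8 := yle h s N (by omega) (by omega)
  simp only [win, mem_union, mem_Ioo] at hi
  unfold Bey
  omega

/-- among three distinct numbers in an open interval two are close -/
theorem three (w1 w2 : ℕ) (z : Fin 3 → ℕ) (hz : ∀ k, w1 < z k ∧ z k < w2)
    (hd : z 0 ≠ z 1 ∧ z 0 ≠ z 2 ∧ z 1 ≠ z 2) :
    ∃ i j : Fin 3, i ≠ j ∧ z i < z j ∧ 2 * (z j - z i) ≤ w2 - w1 := by
  obtain ⟨h1, h2, h3⟩ := hd
  have a0 := hz 0
  have a1 := hz 1
  have a2 := hz 2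
  by_contra hcon
  push Not at hcon
  have b01 := hcon 0 1 (by decide)
  have b10 := hcon 1 0 (by decide)
  have b02 := hcon 0 2 (by decide)
  have b20 := hcon 2 0 (by decide)
  have b12 := hcon 1 2 (by decide)
  have b21 := hcon 2 1 (by decide)
  omega

theorem exdist (Z1 Z2 Z3 : Finset ℕ) (h1 : 3 ≤ Z1.card) (h2 : 3 ≤ Z2.card) (h3 : 3 ≤ Z3.card) :
    ∃ a ∈ Z1, ∃ b ∈ Z2, ∃ d ∈ Z3, a ≠ b ∧ a ≠ d ∧ b ≠ d := by
  obtain ⟨a, ha⟩ := Finset.card_pos.mp (show 0 < Z1.card by omega)
  have hb : 0 < (Z2.erase a).card := by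
    have := Finset.pred_card_le_card_erase (s := Z2) (a := a); omega
  obtain ⟨b, hb⟩ := Finset.card_pos.mp hb
  have hd : 0 < ((Z3.erase a).erase b).card := by
    have := Finset.pred_card_le_card_erase (s := Z3) (a := a)
    have := Finset.pred_card_le_card_erase (s := Z3.erase a) (a := b); omega
  obtain ⟨d, hd⟩ := Finset.card_pos.mp hd
  simp only [mem_erase] at hb hd
  exact ⟨a, ha, b, hb.2, d, hd.2.2, fun h => hb.1 h.symm, fun h => hd.2.1 h.symm,
    fun h => hd.1 h.symm⟩

theorem t_SHR (h1 : S_PRC) (h2 : S_WLOC) : S_SHR := by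
  intro V _ X n c τ σ N x y K s
  induction s with
  | zero =>
    intro p l1 l2 w1 w2 L1 L2 hS hL hp hpN hO hw
    have hp' : 3 * σ + 18 ≤ p := by simpa using hp
    obtain ⟨Z, hZ, hZ2⟩ := h1 V X n c τ σ N x y K (p - σ - 5) (p - 2) p l1 l2 w1 w2 L1 L2 hS hL
      (by omega) (by omega) (by omega) hpN hO
    obtain ⟨z, hz⟩ := Finset.card_pos.mp (show 0 < Z.card by omega)
    have := hZ2 z hz
    simp only [pow_zero] at hw
    omega
  | succ s ih =>
    intro p l1 l2 w1 w2 L1 L2 hS hL hp hpN hO hw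
    have hp1 : (3 * σ + 18) * (s + 1) + (3 * σ + 18) ≤ p := by
      calc (3 * σ + 18) * (s + 1) + (3 * σ + 18) = (3 * σ + 18) * (s + 1 + 1) := by ring
        _ ≤ p := hp
    have hp2 : 3 * σ + 18 ≤ p := by
      have : 0 ≤ (3 * σ + 18) * (s + 1) := Nat.zero_le _
      omega
    -- the three windows
    let rr : Fin 3 → ℕ := ![p - σ - 5, p - 2 * σ - 9, p - 3 * σ - 13]
    let ss : Fin 3 → ℕ := ![p - 2, p - σ - 6, p - 2 * σ - 10]
    have hr0 : rr 0 = p - σ - 5 := rfl
    have hr1 : rr 1 = p - 2 * σ - 9 := rfl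
    have hr2 : rr 2 = p - 3 * σ - 13 := rfl
    have hs0 : ss 0 = p - 2 := rfl
    have hs1 : ss 1 = p - σ - 6 := rfl
    have hs2 : ss 2 = p - 2 * σ - 10 := rfl
    have hZ : ∀ k : Fin 3, ∃ Z : Finset ℕ, 3 ≤ Z.card ∧ ∀ z ∈ Z, w1 < z ∧ z < w2 ∧
        ∃ M, Comp X n c M ∧ At X c M z ∧ ∃ i ∈ win x y (rr k) (ss k), At X c M i := by
      intro k
      refine h1 V X n c τ σ N x y K (rr k) (ss k) p l1 l2 w1 w2 L1 L2 hS hL ?_ ?_ ?_ hpN hO
      · fin_cases k
        · show 1 ≤ rr 0; omega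
        · show 1 ≤ rr 1; omega
        · show 1 ≤ rr 2; omega
      · fin_cases k
        · show rr 0 + σ + 3 ≤ ss 0; omega
        · show rr 1 + σ + 3 ≤ ss 1; omega
        · show rr 2 + σ + 3 ≤ ss 2; omega
      · fin_cases k
        · show ss 0 + 2 ≤ p; omega
        · show ss 1 + 2 ≤ p; omega
        · show ss 2 + 2 ≤ p; omega
    choose Z hZ3 hZ4 using hZ
    obtain ⟨a, ha, b, hb, d, hd, hab, had, hbd⟩ := exdist (Z 0) (Z 1) (Z 2) (hZ3 0) (hZ3 1) (hZ3 2)
    let z : Fin 3 → ℕ := ![a, b, d]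
    have hz0 : z 0 = a := rfl
    have hz1 : z 1 = b := rfl
    have hz2 : z 2 = d := rfl
    have hzZ : ∀ k, z k ∈ Z k := by
      intro k
      fin_cases k
      · exact ha
      · exact hb
      · exact hd
    obtain ⟨i, j, hij, hlt, hcl⟩ := three w1 w2 z (fun k => ⟨(hZ4 k _ (hzZ k)).1, (hZ4 k _ (hzZ k)).2.1⟩)
      ⟨hab, had, hbd⟩
    obtain ⟨hi1, hi2, M, hM, hMz, u, hu, hMu⟩ := hZ4 i _ (hzZ i)
    obtain ⟨hj1, hj2, M', hM', hMz', v, hv, hMv⟩ := hZ4 j _ (hzZ j)
    have hlt' : ∀ k : Fin 3, rr k < ss k := by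
      intro k
      fin_cases k
      · show rr 0 < ss 0; omega
      · show rr 1 < ss 1; omega
      · show rr 2 < ss 2; omega
    have hsN : ∀ k : Fin 3, ss k ≤ N := by
      intro k
      fin_cases k
      · show ss 0 ≤ N; omega
      · show ss 1 ≤ N; omega
      · show ss 2 ≤ N; omega
    have hrp : ∀ k : Fin 3, p - 3 * σ - 13 ≤ rr k := by
      intro k
      fin_cases k
      · show p - 3 * σ - 13 ≤ rr 0; omega
      · show p - 3 * σ - 13 ≤ rr 1; omega
      · show p - 3 * σ - 13 ≤ rr 2; omega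
    have hord : ∀ k k' : Fin 3, k < k' → ss k' < rr k := by
      intro k k' hkk
      fin_cases k <;> fin_cases k' <;> simp at hkk
      · show ss 1 < rr 0; omega
      · show ss 2 < rr 0; omega
      · show ss 2 < rr 1; omega
    have hne : M ≠ M' ∧ u ≠ v := by
      rcases lt_or_gt_of_ne hij with h | h
      · exact sep h2 hS hL (rr i) (ss i) (rr j) (ss j) u v M M' (hlt' i) (hsN i) (hord i j h)
          (hlt' j) hu hv hM hMu hMv
      · have := sep h2 hS hL (rr j) (ss j) (rr i) (ss i) v u M' M (hlt' j) (hsN j) (hord j i h)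
          (hlt' i) hv hu hM' hMv hMu
        exact ⟨this.1.symm, this.2.symm⟩
    have hyw := hO.yw
    have hwn := hO.wn
    have hsw := hO.sw
    refine ih (p - 3 * σ - 13) u v (z i) (z j) M M' hS hL (by omega) (by omega)
      { b1 := bey hL (rr i) (ss i) _ u (hlt' i) (hsN i) (hrp i) hu
        b2 := bey hL (rr j) (ss j) _ v (hlt' j) (hsN j) (hrp j) hv
        ll := hne.2
        yw := by omega
        ww := hlt
        wn := by omega
        fr := fun k hk1 hk2 => hO.fr k (by omega) (by omega)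
        sw := by omega
        ne := hne.1
        C1 := hM
        C2 := hM'
        a1 := hMu
        a2 := hMv
        at1 := hMz
        at2 := hMz' } ?_
    rw [pow_succ] at hw
    omega

end Pool.Agent.W193.CH.Shr
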